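import Mathlib

/-!
# Tree automorphisms with translation labels

`PAut X` is the group of automorphisms of the rooted tree of words over a finite abelian group `X`
whose local action at every vertex is a translation of `X`; such an automorphism is the same thing
as its portrait `List X → X`.
-/

set_option autoImplicit false

namespace Pool.Agent.Helper44.BranchEngel

/-- An automorphism of the tree of words over `X` given by its portrait of translations. -/
@[ext]
structure PAut (X : Type) where
  /-- the translation by which the automorphism acts below a vertex -/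
  lab : List X → X

namespace PAut

variable {X : Type} [AddCommGroup X]

/-- Section at a letter. -/
def sec (g : PAut X) (x : X) : PAut X := ⟨fun w => g.lab (x :: w)⟩

/-- Action on words. -/
def act : PAut X → List X → List X
  | _, [] => []
  | g, x :: w => (x + g.lab []) :: act (g.sec x) w

/-- Action of the inverse on words. -/
def actInv : PAut X → List X → List X
  | _, [] => []
  | g, y :: w => (y - g.lab []) :: actInv (g.sec (y - g.lab [])) w

@[simp] lemma act_nil (g : PAut X) : act g [] = [] := rfl
@[simp] lemma act_cons (g : PAut X) (x : X) (w : List X) :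
    act g (x :: w) = (x + g.lab []) :: act (g.sec x) w := rfl
@[simp] lemma actInv_nil (g : PAut X) : actInv g [] = [] := rfl
@[simp] lemma actInv_cons (g : PAut X) (y : X) (w : List X) :
    actInv g (y :: w) = (y - g.lab []) :: actInv (g.sec (y - g.lab [])) w := rfl

lemma actInv_act (g : PAut X) (w : List X) : actInv g (act g w) = w := by
  induction w generalizing g with
  | nil => rfl
  | cons x w ih => simp [ih]

lemma act_actInv (g : PAut X) (w : List X) : act g (actInv g w) = w := by
  induction w generalizing g with
  | nil => rfl
  | cons x w ih => simp [ih]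

instance : One (PAut X) := ⟨⟨fun _ => 0⟩⟩
instance : Mul (PAut X) := ⟨fun g h => ⟨fun w => g.lab (act h w) + h.lab w⟩⟩
instance : Inv (PAut X) := ⟨fun g => ⟨fun w => -(g.lab (actInv g w))⟩⟩

@[simp] lemma lab_one (w : List X) : (1 : PAut X).lab w = 0 := rfl
lemma lab_mul (g h : PAut X) (w : List X) : (g * h).lab w = g.lab (act h w) + h.lab w := rfl
@[simp] lemma lab_mul_nil (g h : PAut X) : (g * h).lab [] = g.lab [] + h.lab [] := rfl
lemma lab_inv (g : PAut X) (w : List X) : (g⁻¹).lab w = -(g.lab (actInv g w)) := rfl
@[simp] lemma lab_inv_nil (g : PAut X) : (g⁻¹).lab [] = -(g.lab []) := rfl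

@[simp] lemma sec_one (x : X) : (1 : PAut X).sec x = 1 := rfl
lemma sec_mul (g h : PAut X) (x : X) : (g * h).sec x = g.sec (x + h.lab []) * h.sec x := rfl

lemma act_one (w : List X) : act (1 : PAut X) w = w := by
  induction w with
  | nil => rfl
  | cons x w ih => simp [ih]

lemma act_mul (g h : PAut X) (w : List X) : act (g * h) w = act g (act h w) := by
  induction w generalizing g h with
  | nil => rfl
  | cons x w ih =>
    simp only [act_cons, lab_mul_nil, sec_mul, ih]
    rw [add_assoc, add_comm (h.lab [])]

instance : Group (PAut X) :=
  Group.ofLeftAxioms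
    (fun g h k => by
      ext w
      simp only [lab_mul, act_mul, add_assoc])
    (fun g => by
      ext w
      simp [lab_mul])
    (fun g => by
      ext w
      simp [lab_mul, lab_inv, actInv_act])

lemma sec_inv (g : PAut X) (x : X) : (g⁻¹).sec x = (g.sec (x - g.lab []))⁻¹ := by
  rfl

instance : MulAction (PAut X) (List X) where
  smul g w := act g w
  one_smul w := act_one w
  mul_smul g h w := act_mul g h w

@[simp] lemma smul_nil (g : PAut X) : g • ([] : List X) = [] := rfl
@[simp] lemma smul_cons (g : PAut X) (x : X) (w : List X) :
    g • (x :: w) = (x + g.lab []) :: (g.sec x • w) := rfl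

@[simp] lemma length_smul (g : PAut X) (w : List X) : (g • w).length = w.length := by
  induction w generalizing g with
  | nil => rfl
  | cons x w ih => simp [ih]

/-- Extensionality by root label and sections. -/
lemma ext_sec {g h : PAut X} (h0 : g.lab [] = h.lab []) (h1 : ∀ x, g.sec x = h.sec x) : g = h := by
  ext w
  cases w with
  | nil => exact h0
  | cons x w =>
    have := congrArg (fun k => k.lab w) (h1 x)
    simpa [sec] using this

/-- Section at a word. -/
def secL (g : PAut X) (v : List X) : PAut X := ⟨fun w => g.lab (v ++ w)⟩

@[simp] lemma secL_nil (g : PAut X) : g.secL [] = g := rfl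
lemma secL_cons (g : PAut X) (x : X) (v : List X) : g.secL (x :: v) = (g.sec x).secL v := rfl
lemma secL_append (g : PAut X) (v w : List X) : g.secL (v ++ w) = (g.secL v).secL w := by
  ext u
  simp [secL]
@[simp] lemma secL_one (v : List X) : (1 : PAut X).secL v = 1 := rfl

lemma smul_append (g : PAut X) (v w : List X) : g • (v ++ w) = (g • v) ++ (g.secL v • w) := by
  induction v generalizing g with
  | nil => rfl
  | cons x v ih => simp [ih, secL_cons]

lemma secL_mul (g h : PAut X) (v : List X) :
    (g * h).secL v = g.secL (h • v) * h.secL v := by
  induction v generalizing g h with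
  | nil => rfl
  | cons x v ih => simp only [secL_cons, sec_mul, ih, smul_cons]

lemma secL_inv (g : PAut X) (v : List X) :
    (g⁻¹).secL (g • v) = (g.secL v)⁻¹ := by
  have h := secL_mul g⁻¹ g v
  rw [inv_mul_cancel, secL_one] at h
  exact eq_inv_of_mul_eq_one_left h.symm

lemma secL_inv' (g : PAut X) (v : List X) :
    (g⁻¹).secL v = (g.secL (g⁻¹ • v))⁻¹ := by
  have := secL_inv g (g⁻¹ • v)
  rwa [smul_inv_smul] at this

/-- A portrait automorphism is trivial if it fixes all words. -/
lemma eq_one_of_smul (g : PAut X) (h : ∀ w : List X, g • w = w) : g = 1 := by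
  ext w
  have h1 := h (w ++ [0])
  rw [smul_append, h w] at h1
  have h2 := List.append_cancel_left h1
  have h3 : (0 : X) + (g.secL w).lab [] = 0 := by
    have := List.head_eq_of_cons_eq h2
    exact this
  simpa [secL] using h3

instance : FaithfulSMul (PAut X) (List X) :=
  ⟨fun {g h} hgh => by
    have : h⁻¹ * g = 1 := by
      apply eq_one_of_smul
      intro w
      rw [mul_smul, hgh w, inv_smul_smul]
    exact (inv_mul_eq_one.mp this).symm⟩

/-- If `g` fixes all words of length `n` and has trivial sections there, it is trivial. -/
lemma eq_one_of_level (g : PAut X) (n : ℕ) (h1 : ∀ v : List X, v.length = n → g • v = v)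
    (h2 : ∀ v : List X, v.length = n → g.secL v = 1) : g = 1 := by
  apply eq_one_of_smul
  intro w
  rcases le_total n w.length with h | h
  · have hv : (w.take n).length = n := by simp [h]
    calc g • w = g • (w.take n ++ w.drop n) := by rw [List.take_append_drop]
      _ = w := by
        rw [smul_append, h1 _ hv, h2 _ hv, one_smul, List.take_append_drop]
  · have hv : (w ++ List.replicate (n - w.length) 0).length = n := by
      simp; omega
    have h3 := h1 _ hv
    rw [smul_append] at h3
    exact List.append_inj_left h3 (by simp)

end PAut

end Pool.Agent.Helper44.BranchEngel
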