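import Pool.Agent.Helper44.BranchEngelA

set_option autoImplicit false
set_option linter.unusedSectionVars false

namespace Pool.Agent.Helper44.BranchEngel

open PAut
open scoped Pointwise commutatorElement

namespace PAut

variable {X : Type} [AddCommGroup X]

/-- Rooted translation. -/
def Tr (v : X) : PAut X := ⟨fun w => match w with | [] => v | _ :: _ => 0⟩

@[simp] lemma Tr_lab_nil (v : X) : (Tr v).lab [] = v := rfl
@[simp] lemma Tr_lab_cons (v x : X) (w : List X) : (Tr v).lab (x :: w) = 0 := rfl
@[simp] lemma sec_Tr (v x : X) : (Tr v).sec x = 1 := rfl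

lemma Tr_add (u v : X) : Tr (u + v) = Tr u * Tr v :=
  ext_sec (by simp) (fun x => by simp [sec_mul])

@[simp] lemma Tr_zero : Tr (0 : X) = 1 := ext_sec rfl (fun _ => rfl)

lemma Tr_neg (v : X) : Tr (-v) = (Tr v)⁻¹ := by
  rw [eq_inv_iff_mul_eq_one, ← Tr_add]; simp

lemma Tr_comm (u v : X) : Tr u * Tr v = Tr v * Tr u := by
  rw [← Tr_add, ← Tr_add, add_comm]

lemma Tr_nsmul (n : ℕ) (v : X) : Tr (n • v) = (Tr v) ^ n := by
  induction n with
  | zero => simp
  | succ n ih => rw [succ_nsmul, Tr_add, ih, pow_succ]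

open Classical in
/-- The automorphism acting as `g` below the letter `x`, trivially elsewhere. -/
noncomputable def delta (x : X) (g : PAut X) : PAut X :=
  ⟨fun w => match w with | [] => 0 | y :: w => if y = x then g.lab w else 0⟩

@[simp] lemma delta_lab_nil (x : X) (g : PAut X) : (delta x g).lab [] = 0 := rfl

open Classical in
lemma sec_delta (x y : X) (g : PAut X) : (delta x g).sec y = if y = x then g else 1 := by
  ext w
  by_cases h : y = x <;> simp [delta, sec, h]

@[simp] lemma sec_delta_self (x : X) (g : PAut X) : (delta x g).sec x = g := by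
  simp [sec_delta]

lemma sec_delta_ne {x y : X} (h : y ≠ x) (g : PAut X) : (delta x g).sec y = 1 := by
  simp [sec_delta, h]

lemma delta_mul (x : X) (g h : PAut X) : delta x (g * h) = delta x g * delta x h := by
  classical
  refine ext_sec (by simp) (fun y => ?_)
  by_cases hy : y = x
  · subst hy; simp [sec_mul]
  · simp [sec_mul, sec_delta, hy]

/-- `delta` as a homomorphism. -/
noncomputable def deltaHom (x : X) : PAut X →* PAut X :=
  MonoidHom.mk' (delta x) (delta_mul x)

@[simp] lemma deltaHom_apply (x : X) (g : PAut X) : deltaHom x g = delta x g := rfl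

/-- The automorphism acting as `g` below the word `v`, trivially elsewhere. -/
noncomputable def deltaL : List X → PAut X → PAut X
  | [], g => g
  | x :: v, g => delta x (deltaL v g)

lemma secL_deltaL_self (v : List X) (g : PAut X) : (deltaL v g).secL v = g := by
  induction v with
  | nil => rfl
  | cons x v ih => simp [deltaL, secL_cons, ih]

lemma secL_deltaL_ne (v w : List X) (g : PAut X) (hl : v.length = w.length) (hne : w ≠ v) :
    (deltaL v g).secL w = 1 := by
  classical
  induction v generalizing w with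
  | nil =>
    cases w with
    | nil => exact absurd rfl hne
    | cons y w => simp at hl
  | cons x v ih =>
    cases w with
    | nil => simp at hl
    | cons y w =>
      simp only [deltaL, secL_cons, sec_delta]
      by_cases hy : y = x
      · subst hy
        simp only [if_true]
        exact ih w (by simpa using hl) (fun h => hne (by rw [h]))
      · simp [hy]

lemma deltaL_smul_of_length_le (v w : List X) (g : PAut X) (hl : w.length ≤ v.length) :
    (deltaL v g) • w = w := by
  classical
  induction v generalizing w with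
  | nil =>
    have : w = [] := by simpa using hl
    subst this; rfl
  | cons x v ih =>
    cases w with
    | nil => rfl
    | cons y w =>
      simp only [deltaL, smul_cons, delta_lab_nil, add_zero, sec_delta]
      by_cases hy : y = x
      · subst hy
        simp only [if_true]
        rw [ih w (by simpa using hl)]
      · simp [hy]

/-- `deltaL v g` fixes every word that does not start with `v`. -/
lemma deltaL_smul_of_not_prefix (v w : List X) (g : PAut X) (h : ¬ v <+: w) :
    (deltaL v g) • w = w := by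
  rcases le_total w.length v.length with hl | hl
  · exact deltaL_smul_of_length_le v w g hl
  · have h1 : (w.take v.length).length = v.length := by simp [hl]
    have h2 : w.take v.length ≠ v := by
      intro h3
      apply h
      rw [← h3]
      exact List.take_prefix _ _
    calc (deltaL v g) • w = (deltaL v g) • (w.take v.length ++ w.drop v.length) := by
            rw [List.take_append_drop]
      _ = w := by
            rw [smul_append, deltaL_smul_of_length_le _ _ _ h1.le,
              secL_deltaL_ne _ _ _ h1.symm h2, one_smul, List.take_append_drop]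

end PAut

section Gen

variable {J : Type} [Fintype J] [DecidableEq J] {N : ℕ} (σ : J → ZMod N)

/-- `x` lies on the line through the codeword `l` in direction `j`. -/
def onLine (j l : J) (x : J → ZMod N) : Prop := ∀ i, i ≠ j → x i = σ l

open Classical in
/-- The translation label of the directed generator `j` at the letter `x`. -/
noncomputable def dirv (j : J) (x : J → ZMod N) : J → ZMod N :=
  fun l => if onLine σ j l x then 1 else 0

open Classical in
/-- The portrait of the directed generator. -/
noncomputable def bLab (j : J) : List (J → ZMod N) → (J → ZMod N)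
  | [] => 0
  | [x] => dirv σ j x
  | x :: y :: w => if onLine σ j j x then bLab j (y :: w) else 0

/-- The rooted generators. -/
def genA (j : J) : PAut (J → ZMod N) := Tr (Pi.single j 1)

/-- The directed generators. -/
noncomputable def genB (j : J) : PAut (J → ZMod N) := ⟨bLab σ j⟩

@[simp] lemma genA_lab_nil (j : J) : (genA j : PAut (J → ZMod N)).lab [] = Pi.single j 1 := rfl
@[simp] lemma genB_lab_nil (j : J) : (genB σ j).lab [] = 0 := rfl
@[simp] lemma sec_genA (j : J) (x : J → ZMod N) : (genA j).sec x = 1 := rfl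

open Classical in
lemma sec_genB (j : J) (x : J → ZMod N) :
    (genB σ j).sec x = Tr (dirv σ j x) * (if onLine σ j j x then genB σ j else 1) := by
  ext w : 2
  cases w with
  | nil =>
    simp only [lab_mul_nil, Tr_lab_nil]
    by_cases h : onLine σ j j x <;> simp [sec, genB, bLab, h]
  | cons y w =>
    by_cases h : onLine σ j j x <;>
      simp [sec, genB, bLab, h, lab_mul]

/-- The syllable groups. -/
noncomputable def Lam (j : J) : Subgroup (PAut (J → ZMod N)) :=
  Subgroup.closure {genA j, genB σ j}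

/-- The group generated by all syllable groups. -/
noncomputable def GG : Subgroup (PAut (J → ZMod N)) :=
  Subgroup.closure (Set.range (genA (N := N)) ∪ Set.range (genB σ))

/-- The group generated by all syllable groups but the `i`-th. -/
noncomputable def HH (i : J) : Subgroup (PAut (J → ZMod N)) :=
  Subgroup.closure {g | ∃ j, j ≠ i ∧ (g = genA j ∨ g = genB σ j)}

lemma genA_mem_Lam (j : J) : genA j ∈ Lam σ j := Subgroup.subset_closure (by simp)
lemma genB_mem_Lam (j : J) : genB σ j ∈ Lam σ j := Subgroup.subset_closure (by simp)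

lemma genA_mem_GG (j : J) : genA j ∈ GG σ := Subgroup.subset_closure (Or.inl ⟨j, rfl⟩)
lemma genB_mem_GG (j : J) : genB σ j ∈ GG σ := Subgroup.subset_closure (Or.inr ⟨j, rfl⟩)

lemma Lam_le_GG (j : J) : Lam σ j ≤ GG σ := by
  rw [Lam, Subgroup.closure_le]
  rintro g (rfl | rfl)
  · exact genA_mem_GG σ j
  · exact genB_mem_GG σ j

lemma Lam_le_HH {i j : J} (h : j ≠ i) : Lam σ j ≤ HH σ i := by
  rw [Lam, Subgroup.closure_le]
  rintro g (rfl | rfl)
  · exact Subgroup.subset_closure ⟨j, h, Or.inl rfl⟩
  · exact Subgroup.subset_closure ⟨j, h, Or.inr rfl⟩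

lemma onLine_add_single (j l : J) (x : J → ZMod N) (t : ZMod N) :
    onLine σ j l (x + Pi.single j t) ↔ onLine σ j l x := by
  unfold onLine
  refine forall_congr' fun i => ?_
  refine imp_congr_right fun hi => ?_
  simp [Pi.single_eq_of_ne hi]

lemma dirv_add_single (j : J) (x : J → ZMod N) (t : ZMod N) :
    dirv σ j (x + Pi.single j t) = dirv σ j x := by
  funext l
  by_cases h : onLine σ j l x
  · have h' := (onLine_add_single σ j l x t).mpr h
    simp [dirv, h, h']
  · have h' : ¬ onLine σ j l (x + Pi.single j t) :=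
      fun h' => h ((onLine_add_single σ j l x t).mp h')
    simp [dirv, h, h']

lemma genA_comm_genB (j : J) : genA j * genB σ j = genB σ j * genA j := by
  classical
  refine ext_sec (by simp) (fun x => ?_)
  simp only [sec_mul, sec_genA, genB_lab_nil, genA_lab_nil, one_mul, mul_one, sec_genB,
    dirv_add_single]
  by_cases h : onLine σ j j x
  · have h' := (onLine_add_single σ j j x 1).mpr h
    simp [h, h']
  · have h' : ¬ onLine σ j j (x + Pi.single j 1) :=
      fun h' => h ((onLine_add_single σ j j x 1).mp h')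
    simp [h, h']

lemma Lam_comm (j : J) {g h : PAut (J → ZMod N)} (hg : g ∈ Lam σ j) (hh : h ∈ Lam σ j) :
    g * h = h * g := by
  have key : IsMulCommutative ↥(Lam σ j) := by
    apply Subgroup.isMulCommutative_closure
    rintro x (rfl | rfl) y (rfl | rfl)
    · rfl
    · exact genA_comm_genB σ j
    · exact (genA_comm_genB σ j).symm
    · rfl
  have := key.is_comm.comm ⟨g, hg⟩ ⟨h, hh⟩
  exact congrArg Subtype.val this

open Classical in
lemma dirv_eq (j l : J) (x : J → ZMod N) (h : ∀ l', onLine σ j l' x → l' = l) :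
    dirv σ j x = if onLine σ j l x then Pi.single l 1 else 0 := by
  funext m
  by_cases hl : onLine σ j l x
  · by_cases hm : m = l
    · subst hm; simp [dirv, hl]
    · have : ¬ onLine σ j m x := fun h' => hm (h m h')
      simp [dirv, hl, this, hm]
  · have : ¬ onLine σ j m x := fun h' => hl (h m h' ▸ h')
    simp [dirv, hl, this]

/-- Sections of elements of `HH i` at letters with prescribed `i`-th coordinate lie in a single
syllable group, and the `i`-th coordinate is not moved. -/
lemma HH_sec (hσ : Function.Injective σ) (i : J) (t : ZMod N) :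
    ∃ l, ∀ g ∈ HH σ i, g.lab [] i = 0 ∧ ∀ x : J → ZMod N, x i = t → g.sec x ∈ Lam σ l := by
  classical
  obtain ⟨l, hl⟩ : ∃ l, ∀ l', σ l' = t → l' = l := by
    by_cases h : ∃ l, σ l = t
    · obtain ⟨l, rfl⟩ := h
      exact ⟨l, fun l' h' => hσ h'⟩
    · exact ⟨i, fun l' h' => absurd ⟨l', h'⟩ h⟩
  refine ⟨l, fun g hg => ?_⟩
  induction hg using Subgroup.closure_induction with
  | mem g hg =>
    obtain ⟨j, hj, rfl | rfl⟩ := hg
    · refine ⟨?_, fun x _ => ?_⟩
      · simp [Pi.single_eq_of_ne hj.symm]
      · simp [one_mem]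
    · refine ⟨by simp, fun x hx => ?_⟩
      have h1 : ∀ l', onLine σ j l' x → l' = l := fun l' h' => by
        apply hl
        rw [← h' i hj.symm, hx]
      rw [sec_genB, dirv_eq σ j l x h1]
      apply mul_mem
      · by_cases h2 : onLine σ j l x
        · simp only [h2, if_true]
          exact genA_mem_Lam σ l
        · simp [h2, one_mem]
      · by_cases h2 : onLine σ j j x
        · have := h1 j h2
          subst this
          simp only [h2, if_true]
          exact genB_mem_Lam σ j
        · simp [h2, one_mem]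
  | one => exact ⟨rfl, fun x _ => by simp [one_mem]⟩
  | mul g h _ _ ihg ihh =>
    refine ⟨by simp [ihg.1, ihh.1], fun x hx => ?_⟩
    rw [sec_mul]
    apply mul_mem
    · apply ihg.2
      simp [hx, ihh.1]
    · exact ihh.2 x hx
  | inv g _ ih =>
    refine ⟨by simp [ih.1], fun x hx => ?_⟩
    rw [sec_inv]
    apply inv_mem
    apply ih.2
    simp [hx, ih.1]

/-- Elements of `HH i` acting trivially on the first level commute. -/
lemma HH_comm (hσ : Function.Injective σ) (i : J) {g h : PAut (J → ZMod N)} (hg : g ∈ HH σ i)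
    (hh : h ∈ HH σ i) (hg0 : g.lab [] = 0) (hh0 : h.lab [] = 0) : g * h = h * g := by
  refine ext_sec (by simp [hg0, hh0]) (fun x => ?_)
  obtain ⟨l, hl⟩ := HH_sec σ hσ i (x i)
  rw [sec_mul, sec_mul, hg0, hh0, add_zero]
  exact Lam_comm σ l ((hl g hg).2 x rfl) ((hl h hh).2 x rfl)

/-- The set of syllables. -/
def BB : Set (PAut (J → ZMod N)) := {g | ∃ j, g ∈ Lam σ j}

lemma one_mem_BB [Nonempty J] : (1 : PAut (J → ZMod N)) ∈ BB σ :=
  ⟨Classical.arbitrary J, one_mem _⟩

lemma BB_inv : (BB σ)⁻¹ = BB σ := by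
  ext g
  simp [BB]

lemma pow_BB_inv (n : ℕ) {g : PAut (J → ZMod N)} (hg : g ∈ BB σ ^ n) : g⁻¹ ∈ BB σ ^ n := by
  have : g⁻¹ ∈ (BB σ ^ n)⁻¹ := by simpa using hg
  rwa [← inv_pow, BB_inv] at this

lemma BB_pow_mono [Nonempty J] {m n : ℕ} (h : m ≤ n) : BB σ ^ m ⊆ BB σ ^ n :=
  Set.pow_subset_pow_right (one_mem_BB σ) h

/-- Few syllables miss one of the syllable groups. -/
lemma BB_pow_mem_HH {n : ℕ} (hn : n < Fintype.card J) {g : PAut (J → ZMod N)}
    (hg : g ∈ BB σ ^ n) : ∃ i, g ∈ HH σ i := by
  classical
  rw [Set.mem_pow] at hg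
  obtain ⟨f, rfl⟩ := hg
  choose j hj using fun i => (f i).2
  have h1 : (Finset.univ.image j).card < (Finset.univ : Finset J).card := by
    calc (Finset.univ.image j).card ≤ (Finset.univ : Finset (Fin n)).card :=
          Finset.card_image_le
      _ = n := by simp
      _ < _ := by simpa using hn
  obtain ⟨i, _, hi⟩ := Finset.exists_mem_notMem_of_card_lt_card h1
  refine ⟨i, list_prod_mem ?_⟩
  intro g hg
  rw [List.mem_ofFn] at hg
  obtain ⟨k, rfl⟩ := hg
  refine Lam_le_HH σ ?_ (hj k)
  rintro rfl
  exact hi (by simp)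

/-- Block contraction. -/
lemma sec_mem_BB (hσ : Function.Injective σ) {n : ℕ} (hn : n < Fintype.card J)
    {g : PAut (J → ZMod N)} (hg : g ∈ BB σ ^ n) (x : J → ZMod N) : g.sec x ∈ BB σ := by
  obtain ⟨i, hi⟩ := BB_pow_mem_HH σ hn hg
  obtain ⟨l, hl⟩ := HH_sec σ hσ i (x i)
  exact ⟨l, (hl g hi).2 x rfl⟩

/-- Contraction of syllable length by the factor `R`. -/
lemma sec_mem_pow (hσ : Function.Injective σ) {R : ℕ} (hR : R < Fintype.card J) (m : ℕ)
    {g : PAut (J → ZMod N)} (hg : g ∈ BB σ ^ (R * m)) (x : J → ZMod N) :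
    g.sec x ∈ BB σ ^ m := by
  induction m generalizing g x with
  | zero =>
    simp only [mul_zero, pow_zero, Set.mem_one] at hg ⊢
    subst hg; rfl
  | succ m ih =>
    rw [mul_add, mul_one, pow_add] at hg
    obtain ⟨g1, hg1, g2, hg2, rfl⟩ := hg
    simp only [sec_mul]
    rw [pow_succ]
    exact Set.mul_mem_mul (ih hg1 _) (sec_mem_BB σ hσ hR hg2 x)

lemma secL_mem_pow (hσ : Function.Injective σ) {R : ℕ} (hR : R < Fintype.card J) (s m : ℕ)
    {g : PAut (J → ZMod N)} (hg : g ∈ BB σ ^ (R ^ s * m)) (v : List (J → ZMod N))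
    (hv : v.length = s) :
    g.secL v ∈ BB σ ^ m := by
  induction s generalizing g v with
  | zero =>
    have : v = [] := by simpa using hv
    subst this
    simpa using hg
  | succ s ih =>
    cases v with
    | nil => simp at hv
    | cons x v =>
      rw [secL_cons]
      apply ih _ v (by simpa using hv)
      apply sec_mem_pow σ hσ hR
      rw [← mul_assoc, mul_comm R, ← pow_succ]
      exact hg

lemma exists_mem_pow [Nonempty J] {g : PAut (J → ZMod N)} (hg : g ∈ GG σ) :
    ∃ n, g ∈ BB σ ^ n := by
  induction hg using Subgroup.closure_induction with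
  | mem g hg =>
    refine ⟨1, ?_⟩
    rw [pow_one]
    rcases hg with ⟨j, rfl⟩ | ⟨j, rfl⟩
    · exact ⟨j, genA_mem_Lam σ j⟩
    · exact ⟨j, genB_mem_Lam σ j⟩
  | one => exact ⟨0, by simp⟩
  | mul g h _ _ ihg ihh =>
    obtain ⟨m, hm⟩ := ihg
    obtain ⟨n, hn⟩ := ihh
    exact ⟨m + n, by rw [pow_add]; exact Set.mul_mem_mul hm hn⟩
  | inv g _ ih =>
    obtain ⟨n, hn⟩ := ih
    exact ⟨n, pow_BB_inv σ n hn⟩

/-! ### The Engel type iteration -/

/-- One step of the iteration: `y ↦ [y, x⁻¹ y x]`. -/
def stepE {G : Type*} [Group G] (x y : G) : G := ⁅y, x⁻¹ * y * x⁆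

lemma stepE_lab (x y : PAut (J → ZMod N)) : (stepE x y).lab [] = 0 := by
  simp [stepE, commutatorElement_def]

lemma fix_conj {s : ℕ} {x y : PAut (J → ZMod N)}
    (hy : ∀ v : List (J → ZMod N), v.length = s → y • v = v)
    (v : List (J → ZMod N)) (hv : v.length = s) : (x⁻¹ * y * x) • v = v := by
  rw [mul_smul, mul_smul, hy (x • v) (by simp [hv]), inv_smul_smul]

lemma secL_conj {s : ℕ} {x y : PAut (J → ZMod N)}
    (hy : ∀ v : List (J → ZMod N), v.length = s → y • v = v)
    (v : List (J → ZMod N)) (hv : v.length = s) :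
    (x⁻¹ * y * x).secL v = (x.secL v)⁻¹ * y.secL (x • v) * x.secL v := by
  rw [secL_mul, secL_mul, hy (x • v) (by simp [hv]), secL_inv]

lemma fix_comm {s : ℕ} {y z : PAut (J → ZMod N)}
    (hy : ∀ v : List (J → ZMod N), v.length = s → y • v = v)
    (hz : ∀ v : List (J → ZMod N), v.length = s → z • v = v)
    (v : List (J → ZMod N)) (hv : v.length = s) : ⁅y, z⁆ • v = v := by
  have hy' : y⁻¹ • v = v := by rw [inv_smul_eq_iff, hy v hv]
  have hz' : z⁻¹ • v = v := by rw [inv_smul_eq_iff, hz v hv]
  rw [commutatorElement_def, mul_smul, mul_smul, mul_smul, hz', hy', hz v hv, hy v hv]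

lemma secL_comm {s : ℕ} {y z : PAut (J → ZMod N)}
    (hy : ∀ v : List (J → ZMod N), v.length = s → y • v = v)
    (hz : ∀ v : List (J → ZMod N), v.length = s → z • v = v)
    (v : List (J → ZMod N)) (hv : v.length = s) :
    (⁅y, z⁆).secL v = ⁅y.secL v, z.secL v⁆ := by
  have hy' : y⁻¹ • v = v := by rw [inv_smul_eq_iff, hy v hv]
  have hz' : z⁻¹ • v = v := by rw [inv_smul_eq_iff, hz v hv]
  rw [commutatorElement_def, commutatorElement_def, secL_mul, secL_mul, secL_mul, hz', hy',
    hz v hv, secL_inv', secL_inv', hy', hz']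

lemma secL_stepE {s : ℕ} {x y : PAut (J → ZMod N)}
    (hy : ∀ v : List (J → ZMod N), v.length = s → y • v = v)
    (v : List (J → ZMod N)) (hv : v.length = s) :
    (stepE x y).secL v = ⁅y.secL v, (x.secL v)⁻¹ * y.secL (x • v) * x.secL v⁆ := by
  rw [stepE, secL_comm hy (fix_conj hy) v hv, secL_conj hy v hv]

lemma fix_stepE {s : ℕ} {x y : PAut (J → ZMod N)}
    (hy : ∀ v : List (J → ZMod N), v.length = s → y • v = v)
    (v : List (J → ZMod N)) (hv : v.length = s + 1) : (stepE x y) • v = v := by
  have h1 : v = v.take s ++ v.drop s := by rw [List.take_append_drop]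
  have h2 : (v.take s).length = s := by simp [hv]
  rw [h1, smul_append, secL_stepE hy _ h2]
  congr 1
  · exact fix_comm hy (fix_conj hy) _ h2
  · have h3 : (v.drop s).length = 1 := by simp [hv]
    obtain ⟨z, hz⟩ := List.length_eq_one_iff.mp h3
    rw [hz]
    simp [commutatorElement_def]

/-- One step of the iteration decreases the syllable length of the sections. -/
lemma stepE_good [Nonempty J] (hσ : Function.Injective σ) (hJ : 12 < Fintype.card J) {s L : ℕ}
    {x y : PAut (J → ZMod N)}
    (hy : ∀ v : List (J → ZMod N), v.length = s → y • v = v)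
    (hyL : ∀ v : List (J → ZMod N), v.length = s → y.secL v ∈ BB σ ^ (L + 2))
    (hx : ∀ v : List (J → ZMod N), v.length = s → x.secL v ∈ BB σ) :
    ∀ v : List (J → ZMod N), v.length = s + 1 → (stepE x y).secL v ∈ BB σ ^ (L + 1) := by
  intro v hv
  have h1 : v = v.take s ++ v.drop s := by rw [List.take_append_drop]
  have h2 : (v.take s).length = s := by simp [hv]
  have h3 : (v.drop s).length = 1 := by simp [hv]
  obtain ⟨z, hz⟩ := List.length_eq_one_iff.mp h3
  rw [h1, hz, secL_append, secL_stepE hy _ h2, secL_cons, secL_nil]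
  apply sec_mem_pow σ hσ hJ
  have hp := hyL _ h2
  have hq := hyL (x • v.take s) (by simp [h2])
  have hr : x.secL (v.take s) ∈ BB σ ^ 1 := by rw [pow_one]; exact hx _ h2
  set p := y.secL (v.take s)
  set q := y.secL (x • v.take s)
  set r := x.secL (v.take s)
  have hq' : r⁻¹ * q * r ∈ BB σ ^ (1 + (L + 2) + 1) := by
    rw [pow_add, pow_add]
    exact Set.mul_mem_mul (Set.mul_mem_mul (pow_BB_inv σ 1 hr) hq) hr
  have : ⁅p, r⁻¹ * q * r⁆ ∈ BB σ ^ ((L + 2) + (1 + (L + 2) + 1) + (L + 2) + (1 + (L + 2) + 1)) := by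
    rw [commutatorElement_def, pow_add, pow_add _ ((L + 2) + (1 + (L + 2) + 1)),
      pow_add _ (L + 2) (1 + (L + 2) + 1)]
    exact Set.mul_mem_mul (Set.mul_mem_mul (Set.mul_mem_mul hp hq') (pow_BB_inv σ _ hp))
      (pow_BB_inv σ _ hq')
  exact BB_pow_mono σ (by omega) this

/-- If all sections are syllables, two steps kill. -/
lemma stepE_kill [Nonempty J] (hσ : Function.Injective σ) (hJ : 12 < Fintype.card J) {s : ℕ}
    {x y : PAut (J → ZMod N)}
    (hy : ∀ v : List (J → ZMod N), v.length = s → y • v = v)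
    (hyL : ∀ v : List (J → ZMod N), v.length = s → y.secL v ∈ BB σ)
    (hx : ∀ v : List (J → ZMod N), v.length = s → x.secL v ∈ BB σ) :
    stepE x (stepE x y) = 1 := by
  have hz : ∀ v : List (J → ZMod N), v.length = s → (stepE x y) • v = v :=
    fun v hv => fix_comm hy (fix_conj hy) v hv
  apply eq_one_of_level _ s
  · exact fun v hv => fix_comm hz (fix_conj hz) v hv
  · intro v hv
    rw [secL_stepE hz v hv, secL_stepE hy v hv, secL_stepE hy (x • v) (by simp [hv])]
    rw [commutatorElement_eq_one_iff_mul_comm]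
    have hp := hyL v hv
    have hq := hyL (x • v) (by simp [hv])
    have hq' := hyL (x • x • v) (by simp [hv])
    have hr := hx v hv
    have hr' := hx (x • v) (by simp [hv])
    set p := y.secL v
    set q := y.secL (x • v)
    set q' := y.secL (x • x • v)
    set r := x.secL v
    set r' := x.secL (x • v)
    obtain ⟨jp, hp⟩ := hp
    obtain ⟨jq, hq⟩ := hq
    obtain ⟨jq', hq'⟩ := hq'
    obtain ⟨jr, hr⟩ := hr
    obtain ⟨jr', hr'⟩ := hr'
    have hcard : ({jp, jq, jq', jr, jr'} : Finset J).card < (Finset.univ : Finset J).card := by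
      calc ({jp, jq, jq', jr, jr'} : Finset J).card ≤ 5 := Finset.card_le_five
        _ < _ := by simp; omega
    obtain ⟨i, _, hi⟩ := Finset.exists_mem_notMem_of_card_lt_card hcard
    simp only [Finset.mem_insert, Finset.mem_singleton, not_or] at hi
    obtain ⟨h1, h2, h3, h4, h5⟩ := hi
    have hp := Lam_le_HH σ (Ne.symm h1) hp
    have hq := Lam_le_HH σ (Ne.symm h2) hq
    have hq' := Lam_le_HH σ (Ne.symm h3) hq'
    have hr := Lam_le_HH σ (Ne.symm h4) hr
    have hr' := Lam_le_HH σ (Ne.symm h5) hr'
    have hc : ∀ {a b : PAut (J → ZMod N)}, a ∈ HH σ i → b ∈ HH σ i → ⁅a, b⁆ ∈ HH σ i := by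
      intro a b ha hb
      rw [commutatorElement_def]
      exact mul_mem (mul_mem (mul_mem ha hb) (inv_mem ha)) (inv_mem hb)
    have hconj : ∀ {a b : PAut (J → ZMod N)}, a ∈ HH σ i → b ∈ HH σ i → b⁻¹ * a * b ∈ HH σ i := by
      intro a b ha hb
      exact mul_mem (mul_mem (inv_mem hb) ha) hb
    apply HH_comm σ hσ i
    · exact hc hp (hconj hq hr)
    · exact hconj (hc hq (hconj hq' hr')) hr
    · simp [commutatorElement_def]
    · simp [commutatorElement_def]

lemma stepE_mem {x y : PAut (J → ZMod N)} (hx : x ∈ GG σ) (hy : y ∈ GG σ) :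
    stepE x y ∈ GG σ := by
  unfold stepE
  rw [commutatorElement_def]
  have : x⁻¹ * y * x ∈ GG σ := mul_mem (mul_mem (inv_mem hx) hy) hx
  exact mul_mem (mul_mem (mul_mem hy this) (inv_mem hy)) (inv_mem this)

lemma iterate_stepE_one {G : Type*} [Group G] (x : G) (m : ℕ) : (stepE x)^[m] 1 = 1 := by
  induction m with
  | zero => rfl
  | succ m ih => rw [Function.iterate_succ_apply', ih]; simp [stepE]

/-- Iteration lemma starting at a good level. -/
lemma iterate_kill [Nonempty J] (hσ : Function.Injective σ) (hJ : 12 < Fintype.card J)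
    {x : PAut (J → ZMod N)} {s₀ : ℕ}
    (hx : ∀ s, s₀ ≤ s → ∀ v : List (J → ZMod N), v.length = s → x.secL v ∈ BB σ)
    (L : ℕ) : ∀ (s : ℕ), s₀ ≤ s → ∀ y : PAut (J → ZMod N),
    (∀ v : List (J → ZMod N), v.length = s → y • v = v) →
    (∀ v : List (J → ZMod N), v.length = s → y.secL v ∈ BB σ ^ (L + 1)) →
    ∃ m, (stepE x)^[m] y = 1 := by
  induction L with
  | zero =>
    intro s hs y hy hyL
    refine ⟨2, ?_⟩
    apply stepE_kill σ hσ hJ hy _ (hx s hs)
    simpa using hyL
  | succ L ih =>
    intro s hs y hy hyL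
    obtain ⟨m, hm⟩ := ih (s + 1) (by omega) (stepE x y) (fix_stepE hy)
      (stepE_good σ hσ hJ hy hyL (hx s hs))
    exact ⟨m + 1, by rw [Function.iterate_succ_apply]; exact hm⟩

/-- The Engel type iterated identity `[x₁, x₂⁻¹ x₁ x₂]` holds in `GG`. -/
theorem iterate_stepE_eq_one [Nonempty J] (hσ : Function.Injective σ)
    (hJ : 12 < Fintype.card J) {x y : PAut (J → ZMod N)} (hx : x ∈ GG σ) (hy : y ∈ GG σ) :
    ∃ m, (stepE x)^[m] y = 1 := by
  obtain ⟨s₀, hs₀⟩ := exists_mem_pow σ hx
  have hx' : ∀ s, s₀ ≤ s → ∀ v : List (J → ZMod N), v.length = s → x.secL v ∈ BB σ := by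
    intro s hs v hv
    have h1 : s₀ ≤ 12 ^ s * 1 := by
      have := Nat.lt_pow_self (n := s) (a := 12) (by norm_num)
      omega
    have := secL_mem_pow σ hσ hJ s 1 (BB_pow_mono σ h1 hs₀) v hv
    simpa using this
  have hmem : ∀ m, (stepE x)^[m] y ∈ GG σ := by
    intro m
    induction m with
    | zero => exact hy
    | succ m ih => rw [Function.iterate_succ_apply']; exact stepE_mem σ hx ih
  have hfix : ∀ m, ∀ v : List (J → ZMod N), v.length = m → (stepE x)^[m] y • v = v := by
    intro m
    induction m with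
    | zero =>
      intro v hv
      have : v = [] := by simpa using hv
      subst this; rfl
    | succ m ih => rw [Function.iterate_succ_apply']; exact fix_stepE ih
  obtain ⟨n, hn⟩ := exists_mem_pow σ (hmem s₀)
  have hL : ∀ v : List (J → ZMod N), v.length = s₀ →
      ((stepE x)^[s₀] y).secL v ∈ BB σ ^ (n + 1) := by
    intro v hv
    apply secL_mem_pow σ hσ hJ s₀ (n + 1) _ v hv
    apply BB_pow_mono σ _ hn
    have : 1 ≤ 12 ^ s₀ := Nat.one_le_pow _ _ (by norm_num)
    nlinarith
  obtain ⟨m, hm⟩ := iterate_kill σ hσ hJ hx' n s₀ le_rfl _ (hfix s₀) hL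
  exact ⟨m + s₀, by rw [Function.iterate_add_apply]; exact hm⟩

end Gen

end Pool.Agent.Helper44.BranchEngel
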