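import Pool.Agent.Helper44.BranchEngelB

set_option autoImplicit false
set_option linter.unusedSectionVars false

namespace Pool.Agent.Helper44.BranchEngel

open PAut
open scoped Pointwise commutatorElement

/-- A normal closure criterion for commutators of a generated subgroup. -/
lemma commutator_closure_le {G : Type*} [Group G] (S : Set G) (K : Subgroup G)
    (hK : ∀ g ∈ Subgroup.closure S, ∀ k ∈ K, g * k * g⁻¹ ∈ K)
    (hS : ∀ s ∈ S, ∀ t ∈ S, ⁅s, t⁆ ∈ K) :
    ⁅Subgroup.closure S, Subgroup.closure S⁆ ≤ K := by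
  have key : ∀ t : G, (∀ s ∈ S, ⁅s, t⁆ ∈ K) → ∀ g ∈ Subgroup.closure S, ⁅g, t⁆ ∈ K := by
    intro t ht g hg
    induction hg using Subgroup.closure_induction with
    | mem s hs => exact ht s hs
    | one => simp [one_mem]
    | mul a b ha hb iha ihb =>
      have : ⁅a * b, t⁆ = a * ⁅b, t⁆ * a⁻¹ * ⁅a, t⁆ := by
        simp only [commutatorElement_def]; group
      rw [this]
      exact mul_mem (hK a ha _ ihb) iha
    | inv a ha ih =>
      have : ⁅a⁻¹, t⁆ = a⁻¹ * ⁅a, t⁆⁻¹ * a⁻¹⁻¹ := by
        simp only [commutatorElement_def]; group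
      rw [this]
      exact hK a⁻¹ (inv_mem ha) _ (inv_mem ih)
  rw [Subgroup.commutator_le]
  intro g hg h hh
  apply key h _ g hg
  intro s hs
  rw [← commutatorElement_inv]
  apply inv_mem
  exact key s (fun t ht => hS t ht s hs) h hh

namespace PAut

variable {X : Type} [AddCommGroup X]

lemma sec_comm {y z : PAut X} (hy : y.lab [] = 0) (hz : z.lab [] = 0) (x : X) :
    (⁅y, z⁆).sec x = ⁅y.sec x, z.sec x⁆ := by
  simp [commutatorElement_def, sec_mul, sec_inv, hy, hz]

lemma sec_conj_Tr (b : PAut X) (c x : X) :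
    ((Tr c)⁻¹ * b * Tr c).sec x = b.sec (x + c) := by
  simp [sec_mul, sec_inv]

lemma delta_conj_Tr (x : X) (g : PAut X) : Tr x * delta 0 g * (Tr x)⁻¹ = delta x g := by
  classical
  refine ext_sec (by simp) (fun y => ?_)
  simp only [sec_mul, sec_inv, sec_Tr, Tr_lab_nil, lab_inv_nil, inv_one, mul_one, one_mul,
    sec_delta]
  by_cases h : y = x
  · subst h; simp
  · have : ¬ (y + -x = 0) := fun h' => h (by rwa [← sub_eq_add_neg, sub_eq_zero] at h')
    simp [h, this]

lemma delta_conj {g' : PAut X} (h0 : g'.lab [] = 0) (k : PAut X) :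
    g' * delta 0 k * g'⁻¹ = delta 0 (g'.sec 0 * k * (g'.sec 0)⁻¹) := by
  classical
  refine ext_sec (by simp) (fun y => ?_)
  simp only [sec_mul, sec_inv, h0, lab_inv_nil, delta_lab_nil, neg_zero, add_zero, sub_zero,
    sec_delta]
  by_cases h : y = 0
  · subst h; simp
  · simp [h]

lemma lab_pow_nil (g : PAut X) (m : ℕ) : (g ^ m).lab [] = m • g.lab [] := by
  induction m with
  | zero => simp
  | succ m ih => rw [pow_succ, lab_mul_nil, ih, succ_nsmul]

lemma sec_pow_of_fix {g : PAut X} (h0 : g.lab [] = 0) (x : X) (m : ℕ) :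
    (g ^ m).sec x = (g.sec x) ^ m := by
  induction m with
  | zero => rfl
  | succ m ih => rw [pow_succ, sec_mul, h0, add_zero, ih, pow_succ]

lemma secL_pow_of_fix {g : PAut X} {v : List X} (h : g • v = v) (m : ℕ) :
    (g ^ m).secL v = (g.secL v) ^ m := by
  induction m with
  | zero => rfl
  | succ m ih => rw [pow_succ, secL_mul, h, ih, pow_succ]

end PAut

section Gen

variable {J : Type} [Fintype J] [DecidableEq J] {N : ℕ} [NeZero N] (σ : J → ZMod N)

/-- All rooted translations are in the group. -/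
lemma Tr_mem_GG (v : J → ZMod N) : Tr v ∈ GG σ := by
  have h1 : ∀ (i : J) (n : ℕ), Tr (n • (Pi.single i 1 : J → ZMod N)) ∈ GG σ := by
    intro i n
    rw [Tr_nsmul]
    exact pow_mem (genA_mem_GG σ i) n
  have h2 : v = ∑ i, (v i).val • (Pi.single i 1 : J → ZMod N) := by
    funext j
    rw [Finset.sum_apply, Finset.sum_eq_single j]
    · simp only [Pi.smul_apply, Pi.single_eq_same, nsmul_eq_mul, mul_one, ZMod.natCast_zmod_val]
    · intro i _ hi
      simp [Pi.single_eq_of_ne hi.symm]
    · intro h
      exact absurd (Finset.mem_univ j) h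
  have h3 : ∀ s : Finset J, Tr (∑ i ∈ s, (v i).val • (Pi.single i 1 : J → ZMod N)) ∈ GG σ := by
    intro s
    induction s using Finset.induction_on with
    | empty => simp [one_mem]
    | insert a s ha ih =>
      rw [Finset.sum_insert ha, Tr_add]
      exact mul_mem (h1 _ _) ih
  rw [h2]
  exact h3 _

/-- The codeword. -/
def cw (l : J) : J → ZMod N := fun _ => σ l

/-- The translated directed generators. -/
noncomputable def uu (j l : J) : PAut (J → ZMod N) :=
  (Tr (cw σ l))⁻¹ * genB σ j * Tr (cw σ l)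

@[simp] lemma uu_lab_nil (j l : J) : (uu σ j l).lab [] = 0 := by simp [uu]

lemma sec_uu (j l : J) (x : J → ZMod N) : (uu σ j l).sec x = (genB σ j).sec (x + cw σ l) :=
  sec_conj_Tr _ _ _

lemma uu_mem (j l : J) : uu σ j l ∈ GG σ :=
  mul_mem (mul_mem (inv_mem (Tr_mem_GG σ _)) (genB_mem_GG σ j)) (Tr_mem_GG σ _)

/-- The label of `genB j` at the codeword `l`. -/
noncomputable def bet (j l : J) : PAut (J → ZMod N) :=
  genA l * (if j = l then genB σ j else 1)

lemma bet_mem_Lam (j l : J) : bet σ j l ∈ Lam σ l := by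
  unfold bet
  apply mul_mem (genA_mem_Lam σ l)
  by_cases h : j = l
  · subst h; simp [genB_mem_Lam]
  · simp [h, one_mem]

lemma sec_genB_of_onLine (hσ : Function.Injective σ) (hJ : 2 < Fintype.card J) {j l : J}
    {x : J → ZMod N} (h : onLine σ j l x) : (genB σ j).sec x = bet σ j l := by
  classical
  obtain ⟨i, hi⟩ : ∃ i, i ≠ j := by
    by_contra hcon
    push Not at hcon
    have : Fintype.card J ≤ 1 := Fintype.card_le_one_iff.mpr (fun a b => by rw [hcon a, hcon b])
    omega
  have h1 : ∀ l', onLine σ j l' x → l' = l := fun l' h' => hσ (by rw [← h' i hi, h i hi])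
  rw [sec_genB, dirv_eq σ j l x h1]
  simp only [h, if_true, bet, genA]
  congr 1
  by_cases h2 : onLine σ j j x
  · have := h1 j h2
    subst this
    simp [h]
  · have : j ≠ l := fun h' => h2 (by rw [h'] at h ⊢; exact h)
    simp [h2, this]

lemma sec_genB_of_not {j : J} {x : J → ZMod N} (h : ∀ l, ¬ onLine σ j l x) :
    (genB σ j).sec x = 1 := by
  classical
  rw [sec_genB]
  have : dirv σ j x = 0 := by
    funext l
    simp [dirv, h l]
  simp [this, h j]

/-- The Sidon property of the code. -/
def Sidon : Prop := ∀ l l' i i' : J, l ≠ l' → σ l - σ l' = σ i - σ i' → i = l ∧ i' = l'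

lemma Sidon.injective {σ : J → ZMod N} (h : Sidon σ) : Function.Injective σ := by
  intro a b hab
  by_contra hne
  obtain ⟨h1, h2⟩ := h a b b a hne (by rw [hab])
  exact hne h1.symm

/-- Commutators supported at a single letter. -/
lemma comm_uu (hS : Sidon σ) (hJ : 2 < Fintype.card J) {j j' l l' : J} (hj : j ≠ j')
    (hl : l ≠ l') : ⁅uu σ j l, uu σ j' l'⁆ = delta 0 ⁅bet σ j l, bet σ j' l'⁆ := by
  classical
  have hσ := hS.injective
  refine ext_sec (by simp [commutatorElement_def]) (fun x => ?_)
  rw [sec_comm (uu_lab_nil σ j l) (uu_lab_nil σ j' l'), sec_uu, sec_uu, sec_delta]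
  by_cases hx : x = 0
  · subst hx
    rw [if_pos rfl, zero_add, zero_add, sec_genB_of_onLine σ hσ hJ (j := j) (l := l),
      sec_genB_of_onLine σ hσ hJ (j := j') (l := l')]
    · intro i _; rfl
    · intro i _; rfl
  · rw [if_neg hx]
    by_cases h1 : ∃ i, onLine σ j i (x + cw σ l)
    · by_cases h2 : ∃ i', onLine σ j' i' (x + cw σ l')
      · exfalso
        obtain ⟨i, hi⟩ := h1
        obtain ⟨i', hi'⟩ := h2
        obtain ⟨m, hm1, hm2⟩ : ∃ m, m ≠ j ∧ m ≠ j' := by
          have : ({j, j'} : Finset J).card < (Finset.univ : Finset J).card := by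
            calc ({j, j'} : Finset J).card ≤ 2 := Finset.card_le_two
              _ < _ := by simpa using hJ
          obtain ⟨m, _, hm⟩ := Finset.exists_mem_notMem_of_card_lt_card this
          simp only [Finset.mem_insert, Finset.mem_singleton, not_or] at hm
          exact ⟨m, hm.1, hm.2⟩
        have e1 : x m + σ l = σ i := hi m hm1
        have e2 : x m + σ l' = σ i' := hi' m hm2
        have e3 : σ l - σ l' = σ i - σ i' := by rw [← e1, ← e2]; ring
        obtain ⟨rfl, rfl⟩ := hS l l' i i' hl e3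
        apply hx
        funext n
        by_cases hn : n = j
        · have : n ≠ j' := fun h => hj (hn.symm.trans h)
          have := hi' n this
          simpa [cw] using this
        · have := hi n hn
          simpa [cw] using this
      · push Not at h2
        rw [sec_genB_of_not σ h2]
        simp
    · push Not at h1
      rw [sec_genB_of_not σ h1]
      simp

/-- The generating set of labels generates the group. -/
lemma closure_bet (hJ : 2 < Fintype.card J) :
    Subgroup.closure (Set.range fun p : J × J => bet σ p.1 p.2) = GG σ := by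
  apply le_antisymm
  · rw [Subgroup.closure_le]
    rintro _ ⟨⟨j, l⟩, rfl⟩
    exact Lam_le_GG σ l (bet_mem_Lam σ j l)
  · rw [GG, Subgroup.closure_le]
    have hA : ∀ l, genA l ∈ Subgroup.closure (Set.range fun p : J × J => bet σ p.1 p.2) := by
      intro l
      obtain ⟨i, hi⟩ : ∃ i, i ≠ l := by
        by_contra hcon
        push Not at hcon
        have : Fintype.card J ≤ 1 :=
          Fintype.card_le_one_iff.mpr (fun a b => by rw [hcon a, hcon b])
        omega
      apply Subgroup.subset_closure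
      exact ⟨(i, l), by simp [bet, hi]⟩
    rintro g (⟨l, rfl⟩ | ⟨l, rfl⟩)
    · exact hA l
    · have : genB σ l = (genA l)⁻¹ * bet σ l l := by simp [bet]
      rw [this]
      apply mul_mem (inv_mem (hA l))
      exact Subgroup.subset_closure ⟨(l, l), rfl⟩

/-- Self-replication. -/
lemma self_replicating (hσ : Function.Injective σ) (hJ : 2 < Fintype.card J)
    {g : PAut (J → ZMod N)} (hg : g ∈ GG σ) :
    ∃ g' ∈ GG σ, g'.lab [] = 0 ∧ g'.sec 0 = g := by
  rw [← closure_bet σ hJ] at hg
  induction hg using Subgroup.closure_induction with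
  | mem g hg =>
    obtain ⟨⟨j, l⟩, rfl⟩ := hg
    refine ⟨uu σ j l, uu_mem σ j l, uu_lab_nil σ j l, ?_⟩
    rw [sec_uu, zero_add]
    exact sec_genB_of_onLine σ hσ hJ (fun i _ => rfl)
  | one => exact ⟨1, one_mem _, rfl, rfl⟩
  | mul g h _ _ ihg ihh =>
    obtain ⟨g', h1, h2, h3⟩ := ihg
    obtain ⟨h', h4, h5, h6⟩ := ihh
    exact ⟨g' * h', mul_mem h1 h4, by simp [h2, h5], by rw [sec_mul, h5, add_zero, h3, h6]⟩
  | inv g _ ih =>
    obtain ⟨g', h1, h2, h3⟩ := ih
    exact ⟨g'⁻¹, inv_mem h1, by simp [h2], by rw [sec_inv, h2, sub_zero, h3]⟩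

/-- The commutator subgroup. -/
noncomputable def DD : Subgroup (PAut (J → ZMod N)) := ⁅GG σ, GG σ⁆

lemma DD_le_GG : DD σ ≤ GG σ := by
  rw [DD, Subgroup.commutator_le]
  intro g hg h hh
  rw [commutatorElement_def]
  exact mul_mem (mul_mem (mul_mem hg hh) (inv_mem hg)) (inv_mem hh)

lemma DD_conj {g d : PAut (J → ZMod N)} (hg : g ∈ GG σ) (hd : d ∈ DD σ) :
    g * d * g⁻¹ ∈ DD σ := by
  have : g * d * g⁻¹ = ⁅g, d⁆ * d := by simp [commutatorElement_def]
  rw [this]
  exact mul_mem (Subgroup.commutator_mem_commutator hg (DD_le_GG σ hd)) hd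

lemma delta_zero_mem (hS : Sidon σ) (hJ : 2 < Fintype.card J) {g : PAut (J → ZMod N)}
    (hg : g ∈ DD σ) : delta 0 g ∈ DD σ := by
  have hσ := hS.injective
  have key : ⁅Subgroup.closure (Set.range fun p : J × J => bet σ p.1 p.2),
      Subgroup.closure (Set.range fun p : J × J => bet σ p.1 p.2)⁆ ≤
      (DD σ).comap (deltaHom 0) := by
    apply commutator_closure_le
    · rw [closure_bet σ hJ]
      intro g hg k hk
      rw [Subgroup.mem_comap, deltaHom_apply] at hk ⊢
      obtain ⟨g', h1, h2, h3⟩ := self_replicating σ hσ hJ hg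
      rw [← h3, ← delta_conj h2]
      exact DD_conj σ h1 hk
    · rintro _ ⟨⟨j, l⟩, rfl⟩ _ ⟨⟨j', l'⟩, rfl⟩
      rw [Subgroup.mem_comap, deltaHom_apply]
      simp only
      have main : ∀ i i' : J, i ≠ i' → l ≠ l' → delta 0 ⁅bet σ i l, bet σ i' l'⁆ ∈ DD σ := by
        intro i i' hi hl
        rw [← comm_uu σ hS hJ hi hl]
        exact Subgroup.commutator_mem_commutator (uu_mem σ i l) (uu_mem σ i' l')
      by_cases hl : l = l'
      · subst hl
        have : ⁅bet σ j l, bet σ j' l⁆ = 1 := by
          rw [commutatorElement_eq_one_iff_mul_comm]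
          exact Lam_comm σ l (bet_mem_Lam σ j l) (bet_mem_Lam σ j' l)
        rw [this, ← deltaHom_apply, map_one]
        exact one_mem _
      · by_cases hj : j = j'
        · subst hj
          by_cases hjl : j = l
          · -- replace the second one
            have hjl' : j ≠ l' := fun h => hl (hjl.symm.trans h)
            obtain ⟨m, hm1, hm2⟩ : ∃ m, m ≠ j ∧ m ≠ l' := by
              have : ({j, l'} : Finset J).card < (Finset.univ : Finset J).card := by
                calc ({j, l'} : Finset J).card ≤ 2 := Finset.card_le_two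
                  _ < _ := by simpa using hJ
              obtain ⟨m, _, hm⟩ := Finset.exists_mem_notMem_of_card_lt_card this
              simp only [Finset.mem_insert, Finset.mem_singleton, not_or] at hm
              exact ⟨m, hm.1, hm.2⟩
            have : bet σ j l' = bet σ m l' := by simp [bet, hjl', hm2]
            rw [this]
            exact main j m hm1.symm hl
          · obtain ⟨m, hm1, hm2⟩ : ∃ m, m ≠ j ∧ m ≠ l := by
              have : ({j, l} : Finset J).card < (Finset.univ : Finset J).card := by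
                calc ({j, l} : Finset J).card ≤ 2 := Finset.card_le_two
                  _ < _ := by simpa using hJ
              obtain ⟨m, _, hm⟩ := Finset.exists_mem_notMem_of_card_lt_card this
              simp only [Finset.mem_insert, Finset.mem_singleton, not_or] at hm
              exact ⟨m, hm.1, hm.2⟩
            have : bet σ j l = bet σ m l := by simp [bet, hjl, hm2]
            rw [this]
            exact main m j hm1 hl
        · exact main j j' hj hl
  rw [closure_bet σ hJ] at key
  exact key hg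

lemma delta_mem (hS : Sidon σ) (hJ : 2 < Fintype.card J) {g : PAut (J → ZMod N)}
    (hg : g ∈ DD σ) (x : J → ZMod N) : delta x g ∈ DD σ := by
  rw [← delta_conj_Tr]
  exact DD_conj σ (Tr_mem_GG σ x) (delta_zero_mem σ hS hJ hg)

lemma deltaL_mem (hS : Sidon σ) (hJ : 2 < Fintype.card J) {g : PAut (J → ZMod N)}
    (hg : g ∈ DD σ) (v : List (J → ZMod N)) : deltaL v g ∈ DD σ := by
  induction v with
  | nil => exact hg
  | cons x v ih => exact delta_mem σ hS hJ ih x

/-- Sections of elements of the group are in the group. -/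
lemma sec_mem_GG (hσ : Function.Injective σ) (hJ : 2 < Fintype.card J)
    {g : PAut (J → ZMod N)} (hg : g ∈ GG σ) (x : J → ZMod N) : g.sec x ∈ GG σ := by
  classical
  induction hg using Subgroup.closure_induction generalizing x with
  | mem g hg =>
    rcases hg with ⟨j, rfl⟩ | ⟨j, rfl⟩
    · simp [one_mem]
    · by_cases h : ∃ l, onLine σ j l x
      · obtain ⟨l, hl⟩ := h
        rw [sec_genB_of_onLine σ hσ hJ hl]
        exact Lam_le_GG σ l (bet_mem_Lam σ j l)
      · push Not at h
        rw [sec_genB_of_not σ h]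
        exact one_mem _
  | one => simp [one_mem]
  | mul g h _ _ ihg ihh =>
    rw [sec_mul]
    exact mul_mem (ihg _) (ihh _)
  | inv g _ ih =>
    rw [sec_inv]
    exact inv_mem (ih _)

lemma secL_mem_GG (hσ : Function.Injective σ) (hJ : 2 < Fintype.card J)
    {g : PAut (J → ZMod N)} (hg : g ∈ GG σ) (v : List (J → ZMod N)) : g.secL v ∈ GG σ := by
  induction v generalizing g with
  | nil => exact hg
  | cons x v ih =>
    rw [secL_cons]
    exact ih (sec_mem_GG σ hσ hJ hg x)

/-- Level transitivity. -/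
lemma exists_smul_eq_replicate (hσ : Function.Injective σ) (hJ : 2 < Fintype.card J)
    (v : List (J → ZMod N)) : ∃ g ∈ GG σ, g • v = List.replicate v.length 0 := by
  induction v with
  | nil => exact ⟨1, one_mem _, rfl⟩
  | cons x v ih =>
    obtain ⟨g, hg, hgv⟩ := ih
    obtain ⟨g', h1, h2, h3⟩ := self_replicating σ hσ hJ hg
    refine ⟨g' * Tr (-x), mul_mem h1 (Tr_mem_GG σ _), ?_⟩
    rw [mul_smul]
    simp [h2, h3, hgv, List.replicate_succ]

lemma level_transitive (hσ : Function.Injective σ) (hJ : 2 < Fintype.card J)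
    (v w : List (J → ZMod N)) (h : v.length = w.length) : ∃ g ∈ GG σ, g • v = w := by
  obtain ⟨g, hg, hgv⟩ := exists_smul_eq_replicate σ hσ hJ v
  obtain ⟨k, hk, hkw⟩ := exists_smul_eq_replicate σ hσ hJ w
  refine ⟨k⁻¹ * g, mul_mem (inv_mem hk) hg, ?_⟩
  rw [mul_smul, hgv, h, ← hkw, inv_smul_smul]

/-! ### Finite order of the generators -/

lemma genA_pow (j : J) : (genA j : PAut (J → ZMod N)) ^ N = 1 := by
  rw [genA, ← Tr_nsmul]
  have : N • (Pi.single j 1 : J → ZMod N) = 0 := by
    funext i
    simp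
  rw [this, Tr_zero]

lemma genB_pow (hσ : Function.Injective σ) (hJ : 2 < Fintype.card J) (j : J) :
    (genB σ j) ^ N = 1 := by
  apply eq_one_of_smul
  intro w
  induction w with
  | nil => rfl
  | cons x w ih =>
    rw [smul_cons, lab_pow_nil, genB_lab_nil, smul_zero, add_zero,
      sec_pow_of_fix (genB_lab_nil σ j)]
    by_cases h : ∃ l, onLine σ j l x
    · obtain ⟨l, hl⟩ := h
      rw [sec_genB_of_onLine σ hσ hJ hl, bet]
      by_cases hjl : j = l
      · subst hjl
        rw [if_pos rfl]
        have hc : Commute (genA j) (genB σ j) := genA_comm_genB σ j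
        rw [hc.mul_pow, genA_pow, one_mul, ih]
      · rw [if_neg hjl, mul_one, genA_pow, one_smul]
    · push Not at h
      rw [sec_genB_of_not σ h, one_pow, one_smul]

/-! ### An element of infinite order -/

/-- The element of infinite order. -/
noncomputable def hh (j : J) : PAut (J → ZMod N) := genB σ j * Tr 1

lemma hh_mem (j : J) : hh σ j ∈ GG σ := mul_mem (genB_mem_GG σ j) (Tr_mem_GG σ _)

@[simp] lemma hh_lab_nil (j : J) : (hh σ j).lab [] = 1 := by simp [hh]

lemma sec_hh (j : J) (x : J → ZMod N) : (hh σ j).sec x = (genB σ j).sec (x + 1) := by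
  simp [hh, sec_mul]

lemma onLine_const (hJ : 2 < Fintype.card J) {j l : J} {t : ZMod N} :
    onLine σ j l (fun _ => t) ↔ t = σ l := by
  obtain ⟨i, hi⟩ : ∃ i, i ≠ j := by
    by_contra hcon
    push Not at hcon
    have : Fintype.card J ≤ 1 := Fintype.card_le_one_iff.mpr (fun a b => by rw [hcon a, hcon b])
    omega
  exact ⟨fun h => h i hi, fun h _ _ => h⟩

lemma sec_hh_pow (hJ : 2 < Fintype.card J) (s : J → ℕ)
    (hs : ∀ l, s l < N) (hsσ : ∀ l, σ l = (s l : ZMod N)) (j : J) (hj : s j = 0) (m : ℕ)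
    (hm : m < N) :
    ((hh σ j) ^ m).sec 0 = Tr (fun l => if 1 ≤ s l ∧ s l ≤ m then 1 else 0) := by
  classical
  induction m with
  | zero =>
    have : (fun l => if 1 ≤ s l ∧ s l ≤ 0 then (1 : ZMod N) else 0) = 0 := by
      funext l
      have : ¬ (1 ≤ s l ∧ s l ≤ 0) := by omega
      exact if_neg this
    rw [this, Tr_zero]
    rfl
  | succ m ih =>
    have ih := ih (by omega)
    rw [pow_succ', sec_mul, ih, lab_pow_nil, hh_lab_nil, sec_hh, zero_add]
    have h1 : m • (1 : J → ZMod N) + 1 = fun _ => ((m + 1 : ℕ) : ZMod N) := by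
      funext i; simp
    rw [h1, sec_genB]
    have h2 : ∀ l, onLine σ j l (fun _ => ((m + 1 : ℕ) : ZMod N)) ↔ s l = m + 1 := by
      intro l
      rw [onLine_const σ hJ, hsσ]
      constructor
      · intro h
        have := congrArg ZMod.val h
        rw [ZMod.val_natCast_of_lt hm, ZMod.val_natCast_of_lt (hs l)] at this
        exact this.symm
      · intro h; rw [h]
    have h3 : ¬ onLine σ j j (fun _ => ((m + 1 : ℕ) : ZMod N)) := by
      rw [h2, hj]; omega
    rw [if_neg h3, mul_one, ← Tr_add]
    congr 1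
    funext l
    simp only [dirv, Pi.add_apply, h2]
    by_cases h4 : s l = m + 1
    · have h5 : ¬ (s l ≤ m) := by omega
      simp [h4]
    · have h5 : (1 ≤ s l ∧ s l ≤ m + 1) ↔ (1 ≤ s l ∧ s l ≤ m) := by omega
      simp [h4, h5]

lemma sec_hh_pow_N (hσ : Function.Injective σ) (hJ : 2 < Fintype.card J) (hN : 2 ≤ N)
    (s : J → ℕ)
    (hs : ∀ l, s l < N) (hsσ : ∀ l, σ l = (s l : ZMod N)) (j : J) (hj : s j = 0) :
    ((hh σ j) ^ N).sec 0 = hh σ j := by
  classical
  obtain ⟨M, rfl⟩ : ∃ M, N = M + 1 := ⟨N - 1, by omega⟩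
  rw [pow_succ', sec_mul, sec_hh_pow σ hJ s hs hsσ j hj M (by omega), lab_pow_nil, hh_lab_nil,
    sec_hh, zero_add]
  have h1 : M • (1 : J → ZMod (M + 1)) + 1 = fun _ => 0 := by
    funext i
    simp
  have h2 : onLine σ j j (fun _ => (0 : ZMod (M + 1))) := by
    rw [onLine_const σ hJ, hsσ, hj]; simp
  rw [h1, sec_genB_of_onLine σ hσ hJ h2, bet, if_pos rfl, genA_comm_genB, genA, mul_assoc,
    ← Tr_add, hh]
  congr 2
  funext l
  have h3 : s l ≤ M := by have := hs l; omega
  by_cases h4 : l = j
  · subst h4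
    simp [hj]
  · have h5 : s l ≠ 0 := by
      intro h5
      apply h4
      apply hσ
      rw [hsσ, hsσ, h5, hj]
    have h6 : 1 ≤ s l := Nat.one_le_iff_ne_zero.mpr h5
    simp [h4, h3, h6]

/-- `hh` has infinite order. -/
lemma hh_pow_ne_one (hσ : Function.Injective σ) (hJ : 2 < Fintype.card J) (hN : 2 ≤ N)
    (s : J → ℕ)
    (hs : ∀ l, s l < N) (hsσ : ∀ l, σ l = (s l : ZMod N)) (j : J) (hj : s j = 0) (m : ℕ)
    (hm : 0 < m) : (hh σ j) ^ m ≠ 1 := by
  induction m using Nat.strong_induction_on with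
  | _ m ih =>
    intro h
    have h1 := congrArg (fun g => g.lab [] j) h
    simp only [lab_pow_nil, hh_lab_nil, lab_one] at h1
    have h2 : (m : ZMod N) = 0 := by simpa using h1
    rw [ZMod.natCast_eq_zero_iff] at h2
    obtain ⟨k, rfl⟩ := h2
    have hk : 0 < k := Nat.pos_of_mul_pos_right hm |> fun h => by
      rcases Nat.eq_zero_or_pos k with h' | h'
      · subst h'; simp at hm
      · exact h'
    have hlt : k < N * k := by nlinarith
    apply ih k hlt hk
    have h3 : ((hh σ j) ^ N).lab [] = 0 := by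
      rw [lab_pow_nil, hh_lab_nil]
      funext i
      simp
    have h4 := congrArg (fun g => g.sec 0) h
    simp only [sec_one] at h4
    rw [pow_mul, sec_pow_of_fix h3, sec_hh_pow_N σ hσ hJ hN s hs hsσ j hj] at h4
    exact h4

end Gen

end Pool.Agent.Helper44.BranchEngel
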