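import Pool.Agent.Helper44.EngelBranchDefs
import Pool.Agent.Helper44.BranchEngelC

/-!
# The group generated by the portraits is a branch group; the parameters
-/

set_option autoImplicit false
set_option linter.unusedSectionVars false

namespace Pool.Agent.Helper44.EngelBranch

open scoped commutatorElement

/-! ### The construction -/

open Pool.Agent.Helper44.BranchEngel PAut

section

variable {J : Type} [Fintype J] [DecidableEq J] {N : ℕ} [NeZero N] (σ : J → ZMod N)

/-- The tree of words. -/
def wordTree (X : Type) : RootedTree where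
  V := List X
  root := []
  parent := List.dropLast
  level := List.length
  level_root := rfl
  parent_root := rfl
  level_parent := by
    intro v hv
    rw [List.length_dropLast]
    have : 0 < v.length := List.length_pos_iff.mpr hv
    omega

lemma card_children (X : Type) (v : List X) :
    Nat.card ((wordTree X).children v) = Nat.card X := by
  symm
  let f : X → ((wordTree X).children v : Set (List X)) := fun x =>
    ⟨v ++ [x], by
      refine ⟨?_, ?_⟩
      · show v ++ [x] ≠ []
        simp
      · show List.dropLast (v ++ [x]) = v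
        simp⟩
  refine Nat.card_congr (Equiv.ofBijective f ⟨?_, ?_⟩)
  · intro x y h
    have h1 : v ++ [x] = v ++ [y] := congrArg Subtype.val h
    simpa using h1
  · rintro ⟨w, hw1, hw2⟩
    have hw1 : w ≠ [] := hw1
    have hw2 : List.dropLast w = v := hw2
    refine ⟨w.getLast hw1, ?_⟩
    apply Subtype.ext
    show v ++ [w.getLast hw1] = w
    rw [← hw2]
    exact List.dropLast_append_getLast hw1

lemma wordTree_sphericallyHomogeneous (X : Type) [Finite X] [Nontrivial X] :
    (wordTree X).IsSphericallyHomogeneous :=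
  ⟨fun _ => Nat.card X, fun _ => Finite.one_lt_card, fun v => card_children X v⟩

lemma dropLast_iterate {X : Type} (k : ℕ) (w : List X) :
    List.dropLast^[k] w = w.take (w.length - k) := by
  induction k generalizing w with
  | zero => simp
  | succ k ih =>
    rw [Function.iterate_succ_apply, ih, List.length_dropLast, List.dropLast_eq_take,
      List.take_take]
    congr 1
    omega

lemma mem_subtree_of_prefix {X : Type} {v w : List X} (h : v <+: w) :
    w ∈ (wordTree X).subtree v := by
  refine ⟨w.length - v.length, ?_⟩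
  show List.dropLast^[w.length - v.length] w = v
  rw [dropLast_iterate]
  have h1 : v.length ≤ w.length := h.length_le
  have h2 : w.length - (w.length - v.length) = v.length := by omega
  rw [h2]
  exact (List.prefix_iff_eq_take.mp h).symm

/-- The subgroup of elements fixing level `n` with sections in the commutator subgroup. -/
noncomputable def QQ (n : ℕ) : Subgroup (PAut (J → ZMod N)) where
  carrier := {g | ∀ v : List (J → ZMod N), v.length = n → g • v = v ∧ g.secL v ∈ DD σ}
  one_mem' := fun v _ => ⟨one_smul _ v, by simp [one_mem]⟩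
  mul_mem' := by
    intro g h hg hh v hv
    refine ⟨by rw [mul_smul, (hh v hv).1, (hg v hv).1], ?_⟩
    rw [secL_mul, (hh v hv).1]
    exact mul_mem (hg v hv).2 (hh v hv).2
  inv_mem' := by
    intro g hg v hv
    have h1 : g⁻¹ • v = v := by rw [inv_smul_eq_iff, (hg v hv).1]
    refine ⟨h1, ?_⟩
    rw [secL_inv', h1]
    exact inv_mem (hg v hv).2

lemma parent_smul (g : GG σ) (v : List (J → ZMod N)) :
    g • v.dropLast = (g • v).dropLast := by
  rcases List.eq_nil_or_concat v with rfl | ⟨w, x, rfl⟩
  · rfl
  · rw [List.concat_eq_append, List.dropLast_concat]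
    show (g : PAut (J → ZMod N)) • w = ((g : PAut (J → ZMod N)) • (w ++ [x])).dropLast
    rw [smul_append]
    simp

lemma finite_abelianization (hσ : Function.Injective σ) (hJ : 2 < Fintype.card J) :
    (commutator (GG σ)).FiniteIndex := by
  classical
  have hfg : Group.FG (GG σ) := Group.closure_finite_fg _
  have hfg' : Group.FG (Abelianization (GG σ)) :=
    Group.fg_of_surjective (f := Abelianization.of) (QuotientGroup.mk_surjective)
  have hpow : ∀ g : GG σ, (Abelianization.of g) ^ N = 1 := by
    rintro ⟨g, hg⟩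
    have hg' := hg
    induction hg using Subgroup.closure_induction with
    | mem g hg =>
      rw [← map_pow]
      have : (⟨g, hg'⟩ : GG σ) ^ N = 1 := by
        apply Subtype.ext
        rcases hg with ⟨j, rfl⟩ | ⟨j, rfl⟩
        · exact genA_pow j
        · exact genB_pow σ hσ hJ j
      rw [this, map_one]
    | one =>
      have : (⟨1, hg'⟩ : GG σ) = 1 := rfl
      rw [this, map_one, one_pow]
    | mul g h hg1 hh1 ihg ihh =>
      have : (⟨g * h, hg'⟩ : GG σ) = ⟨g, hg1⟩ * ⟨h, hh1⟩ := rfl
      rw [this, map_mul, mul_pow, ihg hg1, ihh hh1, one_mul]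
    | inv g hg1 ih =>
      have : (⟨g⁻¹, hg'⟩ : GG σ) = (⟨g, hg1⟩ : GG σ)⁻¹ := rfl
      rw [this, map_inv, inv_pow, ih hg1, inv_one]
  have htor : IsMulTorsion (Abelianization (GG σ)) := by
    intro g
    obtain ⟨g, rfl⟩ := QuotientGroup.mk_surjective g
    exact isOfFinOrder_iff_pow_eq_one.mpr ⟨N, Nat.pos_of_ne_zero (NeZero.ne N), hpow g⟩
  have hfin : Finite (Abelianization (GG σ)) := CommGroup.finite_of_fg_isMulTorsion _ htor
  exact Subgroup.finiteIndex_iff_finite_quotient.mpr hfin

lemma DD_subgroupOf_finiteIndex (hσ : Function.Injective σ) (hJ : 2 < Fintype.card J) :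
    ((DD σ).subgroupOf (GG σ)).FiniteIndex := by
  have h1 := finite_abelianization σ hσ hJ
  have h2 : commutator (GG σ) ≤ (DD σ).subgroupOf (GG σ) := by
    rw [commutator_def, Subgroup.commutator_le]
    intro g _ h _
    rw [Subgroup.mem_subgroupOf]
    exact Subgroup.commutator_mem_commutator g.2 h.2
  exact Subgroup.finiteIndex_of_le h2

/-- The subgroup `QQ n` has finite index. -/
lemma QQ_finiteIndex (hσ : Function.Injective σ) (hJ : 2 < Fintype.card J) (n : ℕ) :
    ((QQ σ n).subgroupOf (GG σ)).FiniteIndex := by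
  classical
  have hD := DD_subgroupOf_finiteIndex σ hσ hJ
  have hfinQ : Finite (GG σ ⧸ (DD σ).subgroupOf (GG σ)) :=
    Subgroup.finiteIndex_iff_finite_quotient.mp hD
  have hfinL : Finite {v : List (J → ZMod N) // v.length = n} :=
    (List.finite_length_eq (J → ZMod N) n).to_subtype
  let f : GG σ → ({v : List (J → ZMod N) // v.length = n} →
      {v : List (J → ZMod N) // v.length = n} × (GG σ ⧸ (DD σ).subgroupOf (GG σ))) :=
    fun g v => (⟨(g : PAut (J → ZMod N)) • v.1, by rw [length_smul]; exact v.2⟩,
      QuotientGroup.mk ⟨(g : PAut (J → ZMod N)).secL v.1, secL_mem_GG σ hσ hJ g.2 v.1⟩)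
  have key : ∀ g h : GG σ, f g = f h → g⁻¹ * h ∈ (QQ σ n).subgroupOf (GG σ) := by
    intro g h hgh
    rw [Subgroup.mem_subgroupOf]
    intro v hv
    have h1 := congrFun hgh ⟨v, hv⟩
    rw [Prod.ext_iff] at h1
    obtain ⟨h2, h3⟩ := h1
    have h2 : (g : PAut (J → ZMod N)) • v = (h : PAut (J → ZMod N)) • v :=
      congrArg Subtype.val h2
    have h3 := QuotientGroup.eq.mp h3
    rw [Subgroup.mem_subgroupOf] at h3
    have h4 : ((g⁻¹ * h : GG σ) : PAut (J → ZMod N)) =
        (g : PAut (J → ZMod N))⁻¹ * (h : PAut (J → ZMod N)) := rfl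
    rw [h4]
    refine ⟨?_, ?_⟩
    · rw [mul_smul, ← h2, inv_smul_smul]
    · rw [secL_mul, ← h2, secL_inv]
      exact h3
  rw [Subgroup.finiteIndex_iff_finite_quotient]
  apply Finite.of_injective (fun q : GG σ ⧸ (QQ σ n).subgroupOf (GG σ) => f q.out)
  intro q q' hqq
  have := key _ _ hqq
  rw [← QuotientGroup.out_eq' q, ← QuotientGroup.out_eq' q']
  exact QuotientGroup.eq.mpr this

/-- The subgroup `QQ n` is contained in the rigid level stabiliser. -/
lemma QQ_le_ristLevel (hS : Sidon σ) (hJ : 2 < Fintype.card J) (n : ℕ) :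
    (QQ σ n).subgroupOf (GG σ) ≤ @ristLevel (GG σ) _ (wordTree (J → ZMod N))
      (inferInstanceAs (MulAction (GG σ) (List (J → ZMod N)))) n := by
  classical
  let _ : MulAction (GG σ) (wordTree (J → ZMod N)).V :=
    inferInstanceAs (MulAction (GG σ) (List (J → ZMod N)))
  have hfin := List.finite_length_eq (J → ZMod N) n
  have main : ∀ F : Finset (List (J → ZMod N)), (∀ v ∈ F, v.length = n) →
      ∀ g : GG σ, (g : PAut (J → ZMod N)) ∈ QQ σ n →
      (∀ v : List (J → ZMod N), v.length = n → v ∉ F → (g : PAut (J → ZMod N)).secL v = 1) →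
      g ∈ ristLevel (GG σ) (wordTree (J → ZMod N)) n := by
    intro F
    induction F using Finset.induction_on with
    | empty =>
      intro _ g hg hg1
      have : g = 1 := by
        apply Subtype.ext
        apply eq_one_of_level _ n
        · exact fun v hv => (hg v hv).1
        · exact fun v hv => hg1 v hv (by simp)
      rw [this]
      exact one_mem _
    | insert v F hv ih =>
      intro hF g hg hg1
      have hvn : v.length = n := hF v (Finset.mem_insert_self v F)
      have hd : deltaL v ((g : PAut (J → ZMod N)).secL v) ∈ DD σ :=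
        deltaL_mem σ hS hJ (hg v hvn).2 v
      set d : GG σ := ⟨deltaL v ((g : PAut (J → ZMod N)).secL v), DD_le_GG σ hd⟩ with hddef
      have hdfix : ∀ w : List (J → ZMod N), w.length = n → (d : PAut (J → ZMod N)) • w = w :=
        fun w hw => deltaL_smul_of_length_le v w _ (by omega)
      have hdrist : d ∈ ristLevel (GG σ) (wordTree (J → ZMod N)) n := by
        have h1 : rist (GG σ) (wordTree (J → ZMod N)) v ≤
            ristLevel (GG σ) (wordTree (J → ZMod N)) n :=
          le_iSup (fun u : {v : (wordTree (J → ZMod N)).V //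
            (wordTree (J → ZMod N)).level v = n} =>
              rist (GG σ) (wordTree (J → ZMod N)) u.1) ⟨v, hvn⟩
        apply h1
        refine (mem_fixingSubgroup_iff (GG σ)).mpr ?_
        intro w hw
        have hw' : ¬ v <+: (w : List (J → ZMod N)) := fun h => hw (mem_subtree_of_prefix h)
        exact deltaL_smul_of_not_prefix v w _ hw'
      have hg' : (d⁻¹ * g) ∈ ristLevel (GG σ) (wordTree (J → ZMod N)) n := by
        have hval : ((d⁻¹ * g : GG σ) : PAut (J → ZMod N)) =
            (d : PAut (J → ZMod N))⁻¹ * (g : PAut (J → ZMod N)) := rfl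
        have hsec : ∀ w : List (J → ZMod N), w.length = n →
            ((d : PAut (J → ZMod N))⁻¹ * (g : PAut (J → ZMod N))).secL w =
              ((d : PAut (J → ZMod N)).secL w)⁻¹ * (g : PAut (J → ZMod N)).secL w := by
          intro w hw
          have h1 : (d : PAut (J → ZMod N))⁻¹ • w = w := by
            rw [inv_smul_eq_iff, hdfix w hw]
          rw [secL_mul, (hg w hw).1, secL_inv', h1]
        have hdsec : (d : PAut (J → ZMod N)).secL v = (g : PAut (J → ZMod N)).secL v :=
          secL_deltaL_self v _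
        have hdsec' : ∀ w : List (J → ZMod N), w.length = n → w ≠ v →
            (d : PAut (J → ZMod N)).secL w = 1 :=
          fun w hw hne => secL_deltaL_ne v w _ (by omega) hne
        apply ih (fun w hw => hF w (Finset.mem_insert_of_mem hw))
        · intro w hw
          rw [hval]
          refine ⟨?_, ?_⟩
          · rw [mul_smul, (hg w hw).1, inv_smul_eq_iff, hdfix w hw]
          · rw [hsec w hw]
            by_cases hwv : w = v
            · subst hwv
              rw [hdsec, inv_mul_cancel]
              exact one_mem _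
            · rw [hdsec' w hw hwv, inv_one, one_mul]
              exact (hg w hw).2
        · intro w hw hwF
          rw [hval, hsec w hw]
          by_cases hwv : w = v
          · subst hwv
            rw [hdsec, inv_mul_cancel]
          · rw [hdsec' w hw hwv, inv_one, one_mul]
            exact hg1 w hw (by simp [hwv, hwF])
      have : g = d * (d⁻¹ * g) := by group
      rw [this]
      exact mul_mem hdrist hg'
  intro g hg
  rw [Subgroup.mem_subgroupOf] at hg
  exact main hfin.toFinset (fun v hv => by simpa using hv) g hg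
    (fun v hv hv' => absurd (by simpa using hv) hv')

/-- The group is a branch group. -/
theorem isBranchGroup_GG (hS : Sidon σ) (hJ : 2 < Fintype.card J) (hN : 2 ≤ N) :
    IsBranchGroup (GG σ) := by
  have hσ := hS.injective
  let _ : MulAction (GG σ) (wordTree (J → ZMod N)).V :=
    inferInstanceAs (MulAction (GG σ) (List (J → ZMod N)))
  refine ⟨wordTree (J → ZMod N), inferInstance, ?_, ?_, ?_, ?_, ?_⟩
  · have : Fact (1 < N) := ⟨by omega⟩
    have : Nonempty J := Fintype.card_pos_iff.mp (by omega)
    exact wordTree_sphericallyHomogeneous _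
  · intro g v
    exact parent_smul σ g v
  · constructor
    intro g h hgh
    apply Subtype.ext
    apply FaithfulSMul.eq_of_smul_eq_smul (α := List (J → ZMod N))
    intro v
    exact hgh v
  · intro v w hvw
    obtain ⟨g, hg, hgv⟩ := level_transitive σ hσ hJ v w hvw
    exact ⟨⟨g, hg⟩, hgv⟩
  · intro n
    have h1 := QQ_finiteIndex σ hσ hJ n
    exact Subgroup.finiteIndex_of_le (QQ_le_ristLevel σ hS hJ n)

end

/-! ### The iterated identity -/

lemma lift_engelIterate {G : Type} [Group G] (x : Fin 2 → G) (m : ℕ) :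
    FreeGroup.lift x (engelIterate w₀ m) = (stepE (x 1))^[m] (x 0) := by
  induction m with
  | zero => simp [engelIterate]
  | succ m ih =>
    rw [Function.iterate_succ_apply', ← ih]
    simp only [engelIterate, w₀, stepE, map_mul, map_inv, map_commutatorElement,
      FreeGroup.lift_apply_of]
    simp [Function.update]

lemma w₀_ne_one : w₀ ≠ 1 := by
  intro h
  have h1 := congrArg (FreeGroup.lift (![Equiv.swap 0 1, finRotate 3] : Fin 2 → Equiv.Perm (Fin 3))) h
  rw [map_one, w₀] at h1
  simp only [map_mul, map_inv, map_commutatorElement, FreeGroup.lift_apply_of] at h1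
  revert h1
  decide

/-! ### The parameters -/

lemma pow_two_sidon (a b c d : ℕ) (h : 2 ^ a + 2 ^ d = 2 ^ c + 2 ^ b) (hab : a ≠ b) :
    a = c ∧ b = d := by
  induction a generalizing b c d with
  | zero =>
    obtain ⟨b, rfl⟩ : ∃ b', b = b' + 1 := ⟨b - 1, by omega⟩
    rcases Nat.eq_zero_or_pos d with rfl | hd
    · exfalso
      have h1 : 1 ≤ 2 ^ b := Nat.one_le_two_pow
      have h2 : 1 ≤ 2 ^ c := Nat.one_le_two_pow
      rw [pow_succ] at h
      omega
    · obtain ⟨d, rfl⟩ : ∃ d', d = d' + 1 := ⟨d - 1, by omega⟩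
      rcases Nat.eq_zero_or_pos c with rfl | hc
      · refine ⟨rfl, ?_⟩
        have h3 : 2 ^ (d + 1) = 2 ^ (b + 1) := by omega
        exact (Nat.pow_right_injective le_rfl h3).symm
      · exfalso
        obtain ⟨c, rfl⟩ : ∃ c', c = c' + 1 := ⟨c - 1, by omega⟩
        rw [pow_succ, pow_succ, pow_succ] at h
        omega
  | succ a ih =>
    rcases Nat.eq_zero_or_pos b with rfl | hb
    · rcases Nat.eq_zero_or_pos c with rfl | hc
      · exfalso
        have h1 : 1 ≤ 2 ^ a := Nat.one_le_two_pow
        have h2 : 1 ≤ 2 ^ d := Nat.one_le_two_pow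
        rw [pow_succ] at h
        omega
      · obtain ⟨c, rfl⟩ : ∃ c', c = c' + 1 := ⟨c - 1, by omega⟩
        rcases Nat.eq_zero_or_pos d with rfl | hd
        · refine ⟨?_, rfl⟩
          have h3 : 2 ^ (a + 1) = 2 ^ (c + 1) := by omega
          exact Nat.pow_right_injective le_rfl h3
        · exfalso
          obtain ⟨d, rfl⟩ : ∃ d', d = d' + 1 := ⟨d - 1, by omega⟩
          rw [pow_succ, pow_succ, pow_succ] at h
          omega
    · obtain ⟨b, rfl⟩ : ∃ b', b = b' + 1 := ⟨b - 1, by omega⟩
      rcases Nat.eq_zero_or_pos c with rfl | hc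
      · rcases Nat.eq_zero_or_pos d with rfl | hd
        · exfalso
          have h3 : 2 ^ (a + 1) = 2 ^ (b + 1) := by omega
          exact hab (Nat.pow_right_injective le_rfl h3)
        · exfalso
          obtain ⟨d, rfl⟩ : ∃ d', d = d' + 1 := ⟨d - 1, by omega⟩
          rw [pow_succ, pow_succ, pow_succ] at h
          omega
      · obtain ⟨c, rfl⟩ : ∃ c', c = c' + 1 := ⟨c - 1, by omega⟩
        rcases Nat.eq_zero_or_pos d with rfl | hd
        · exfalso
          rw [pow_succ, pow_succ, pow_succ] at h
          omega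
        · obtain ⟨d, rfl⟩ : ∃ d', d = d' + 1 := ⟨d - 1, by omega⟩
          have h3 : 2 ^ a + 2 ^ d = 2 ^ c + 2 ^ b := by
            rw [pow_succ, pow_succ, pow_succ, pow_succ] at h
            omega
          obtain ⟨h4, h5⟩ := ih b c d h3 (by omega)
          exact ⟨by omega, by omega⟩

/-- The natural numbers defining the code. -/
def sN (l : Fin 13) : ℕ := 2 ^ (l : ℕ) - 1

/-- The code. -/
def σ₀ (l : Fin 13) : ZMod (2 ^ 14) := (sN l : ZMod (2 ^ 14))

lemma sN_lt (l : Fin 13) : sN l < 2 ^ 12 := by
  have h1 : (l : ℕ) ≤ 12 := by omega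
  have h2 : 2 ^ (l : ℕ) ≤ 2 ^ 12 := Nat.pow_le_pow_right (by norm_num) h1
  have h3 : 1 ≤ 2 ^ (l : ℕ) := Nat.one_le_two_pow
  unfold sN
  omega

lemma sidon_σ₀ : Sidon σ₀ := by
  intro l l' i i' hl h
  have h1 : σ₀ l + σ₀ i' = σ₀ i + σ₀ l' := by linear_combination h
  have h2 : ((sN l + sN i' : ℕ) : ZMod (2 ^ 14)) = ((sN i + sN l' : ℕ) : ZMod (2 ^ 14)) := by
    push_cast
    exact h1
  have h3 := congrArg ZMod.val h2
  have b1 := sN_lt l
  have b2 := sN_lt l'
  have b3 := sN_lt i
  have b4 := sN_lt i'
  rw [ZMod.val_natCast_of_lt (by omega), ZMod.val_natCast_of_lt (by omega)] at h3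
  unfold sN at h3
  have c1 : 1 ≤ 2 ^ (l : ℕ) := Nat.one_le_two_pow
  have c2 : 1 ≤ 2 ^ (l' : ℕ) := Nat.one_le_two_pow
  have c3 : 1 ≤ 2 ^ (i : ℕ) := Nat.one_le_two_pow
  have c4 : 1 ≤ 2 ^ (i' : ℕ) := Nat.one_le_two_pow
  have h4 : 2 ^ (l : ℕ) + 2 ^ (i' : ℕ) = 2 ^ (i : ℕ) + 2 ^ (l' : ℕ) := by omega
  obtain ⟨h5, h6⟩ := pow_two_sidon _ _ _ _ h4 (fun h => hl (Fin.ext h))
  exact ⟨Fin.ext h5.symm, Fin.ext h6.symm⟩

/-- **Main theorem.**  The word `w₀ = [x_0, x_1⁻¹ x_0 x_1]` is non-trivial, and there is a finitely
generated branch group that satisfies the Engel type iterated identity `w₀` and contains an element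
of infinite order. -/
theorem main_theorem :
    w₀ ≠ 1 ∧ ∃ (G : Type) (_ : Group G), Group.FG G ∧ IsBranchGroup G ∧
      SatisfiesEngelTypeIdentity G w₀ ∧ ∃ g : G, ¬ IsOfFinOrder g := by
  refine ⟨w₀_ne_one, GG σ₀, inferInstance, ?_, ?_, ?_, ?_⟩
  · exact Group.closure_finite_fg _
  · exact isBranchGroup_GG σ₀ sidon_σ₀ (by simp) (by norm_num)
  · intro x
    obtain ⟨m, hm⟩ := iterate_stepE_eq_one σ₀ sidon_σ₀.injective (by simp) (x 1).2 (x 0).2
    refine ⟨m, ?_⟩
    rw [lift_engelIterate]
    apply Subtype.ext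
    have key : ∀ k, (((stepE (x 1))^[k] (x 0) : GG σ₀) : PAut (Fin 13 → ZMod (2 ^ 14))) =
        (stepE ((x 1 : GG σ₀) : PAut (Fin 13 → ZMod (2 ^ 14))))^[k] (x 0) := by
      intro k
      induction k with
      | zero => rfl
      | succ k ih =>
        rw [Function.iterate_succ_apply', Function.iterate_succ_apply', ← ih]
        rfl
    rw [key, hm]
    rfl
  · refine ⟨⟨hh σ₀ 0, hh_mem σ₀ 0⟩, ?_⟩
    intro h
    rw [isOfFinOrder_iff_pow_eq_one] at h
    obtain ⟨n, hn, h⟩ := h
    have h1 := congrArg Subtype.val h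
    refine hh_pow_ne_one σ₀ sidon_σ₀.injective (by simp) (by norm_num) sN ?_ (fun _ => rfl) 0 ?_
      n hn h1
    · intro l
      have := sN_lt l
      omega
    · simp [sN]

end Pool.Agent.Helper44.EngelBranch
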