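import Mathlib

/-!
# Branch groups and Engel type iterated identities: definitions
-/

set_option autoImplicit false

namespace Pool.Agent.Helper44.EngelBranch

open scoped commutatorElement

/-! ### Rooted trees and branch groups -/

/-- A rooted tree, presented by its set of vertices, its root, the map sending a vertex to its
parent (the root is sent to itself) and the level (distance to the root) of a vertex. -/
structure RootedTree where
  /-- the vertices -/
  V : Type
  /-- the root -/
  root : V
  /-- the parent of a vertex -/
  parent : V → V
  /-- the level of a vertex -/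
  level : V → ℕ
  level_root : level root = 0
  parent_root : parent root = root
  level_parent : ∀ v, v ≠ root → level v = level (parent v) + 1

namespace RootedTree

/-- The set of children of a vertex. -/
def children (T : RootedTree) (v : T.V) : Set T.V := {w | w ≠ T.root ∧ T.parent w = v}

/-- A rooted tree is spherically homogeneous if the number of children of a vertex depends only on
its level; as usual this number is required to be finite and at least two. -/
def IsSphericallyHomogeneous (T : RootedTree) : Prop :=
  ∃ m : ℕ → ℕ, (∀ n, 2 ≤ m n) ∧ ∀ v : T.V, Nat.card (T.children v) = m (T.level v)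

/-- The vertices of the subtree rooted at `v`: those from which `v` is reached by iterating the
parent map. -/
def subtree (T : RootedTree) (v : T.V) : Set T.V := {w | ∃ k : ℕ, T.parent^[k] w = v}

end RootedTree

/-- The rigid vertex stabiliser: the elements fixing every vertex outside the subtree at `v`. -/
def rist (G : Type) [Group G] (T : RootedTree) [MulAction G T.V] (v : T.V) : Subgroup G :=
  fixingSubgroup G (T.subtree v)ᶜ

/-- The rigid level stabiliser: the subgroup generated by the rigid stabilisers of the vertices of
level `n`. -/
def ristLevel (G : Type) [Group G] (T : RootedTree) [MulAction G T.V] (n : ℕ) : Subgroup G :=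
  ⨆ v : {v : T.V // T.level v = n}, rist G T v

/-- `G` is a branch group: it acts faithfully by automorphisms on a spherically homogeneous rooted
tree, transitively on every level, and all rigid level stabilisers have finite index. -/
def IsBranchGroup (G : Type) [Group G] : Prop :=
  ∃ (T : RootedTree) (_ : MulAction G T.V),
    T.IsSphericallyHomogeneous ∧
    (∀ (g : G) (v : T.V), g • T.parent v = T.parent (g • v)) ∧
    FaithfulSMul G T.V ∧
    (∀ v w : T.V, T.level v = T.level w → ∃ g : G, g • v = w) ∧
    ∀ n : ℕ, (ristLevel G T n).FiniteIndex

/-! ### Engel type iterated identities -/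

/-- The words `e_0 = x_0` and `e_{k+1} = w(e_k, x_1, ..., x_n)` (letters are numbered from `0`). -/
def engelIterate {n : ℕ} (w : FreeGroup (Fin (n + 1))) : ℕ → FreeGroup (Fin (n + 1))
  | 0 => FreeGroup.of 0
  | k + 1 => FreeGroup.lift (Function.update FreeGroup.of 0 (engelIterate w k)) w

/-- `G` satisfies the Engel type iterated identity `w`. -/
def SatisfiesEngelTypeIdentity (G : Type) [Group G] {n : ℕ} (w : FreeGroup (Fin (n + 1))) : Prop :=
  ∀ x : Fin (n + 1) → G, ∃ m : ℕ, FreeGroup.lift x (engelIterate w m) = 1

/-- The word `[x_0, x_1⁻¹ x_0 x_1]`. -/
def w₀ : FreeGroup (Fin 2) :=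
  ⁅(FreeGroup.of 0 : FreeGroup (Fin 2)), (FreeGroup.of 1)⁻¹ * FreeGroup.of 0 * FreeGroup.of 1⁆

end Pool.Agent.Helper44.EngelBranch
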